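import Mathlib

/-!
# MP_5f1228_co: the finite core of the case of four colours: definitions

`V` is a finite type of vertices with weights `w`, `l v : Fin n → ℕ` is the word of the vertex `v`.
-/

open scoped Classical
open Finset

namespace Pool.Agent.MP5f1228C

/-- two words meet: they agree in some coordinate -/
def Mt {n : ℕ} (a b : Fin n → ℕ) : Prop := ∃ i, a i = b i

theorem Mt.symm {n : ℕ} {a b : Fin n → ℕ} (h : Mt a b) : Mt b a := by
  obtain ⟨i, hi⟩ := h
  exact ⟨i, hi.symm⟩

/-- `Sk l X t`: there is a skew sequence of length `t` in `X`: vertices `u 0, …, u (t-1)` of `X` and test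
words `b 0, …, b (t-1)` such that `b j` does not meet the word of `u j` and meets the words of all `u i`,
`i < j`. -/
def Sk {V : Type} {n : ℕ} (l : V → Fin n → ℕ) (X : Finset V) (t : ℕ) : Prop :=
  ∃ (u : Fin t → V) (b : Fin t → Fin n → ℕ), (∀ i, u i ∈ X) ∧ (∀ i, ¬ Mt (b i) (l (u i))) ∧
    ∀ i j, i < j → Mt (b j) (l (u i))

/-- weight of the set of all `v ∈ X` with `P v` -/
noncomputable def wt {V : Type} (w : V → ℝ) (X : Finset V) (P : V → Prop) : ℝ :=
  ∑ v ∈ X.filter P, w v

/-- all points (words), lines (all coordinates but one fixed) and planes (one coordinate fixed) inside `X`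
have weight less than `c`, `d`, `e` -/
def Lt3 {V : Type} {n : ℕ} (l : V → Fin n → ℕ) (w : V → ℝ) (X : Finset V) (c d e : ℝ) : Prop :=
  (∀ K : Fin n → ℕ, wt w X (fun v => l v = K) < c) ∧
  (∀ (i : Fin n) (K : Fin n → ℕ), wt w X (fun v => ∀ j, j ≠ i → l v j = K j) < d) ∧
  (∀ (i : Fin n) (K : ℕ), wt w X (fun v => l v i = K) < e)

/-- the words of the vertices `f 0, …, f (m-1)` are pairwise disjoint (differ in all coordinates) -/
def PD {V : Type} {n m : ℕ} (l : V → Fin n → ℕ) (f : Fin m → V) : Prop :=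
  ∀ i j, i ≠ j → ¬ Mt (l (f i)) (l (f j))

/-! basic facts on `wt` -/

section
variable {V : Type} {w : V → ℝ} {X Y : Finset V} {P Q : V → Prop}

theorem wt_eq_filter (w : V → ℝ) (X : Finset V) (P : V → Prop) [DecidablePred P] :
    wt w X P = ∑ v ∈ X.filter P, w v := by
  unfold wt
  refine Finset.sum_congr ?_ (fun _ _ => rfl)
  ext v
  simp only [Finset.mem_filter]

theorem wt_mono (hw : ∀ v, 0 ≤ w v) (h : ∀ v ∈ X, P v → v ∈ Y ∧ Q v) : wt w X P ≤ wt w Y Q := by
  unfold wt
  refine Finset.sum_le_sum_of_subset_of_nonneg (fun v hv => ?_) (fun v _ _ => hw v)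
  have hv' := Finset.mem_filter.1 hv
  exact Finset.mem_filter.2 (h v hv'.1 hv'.2)

theorem wt_nonneg (hw : ∀ v, 0 ≤ w v) (X : Finset V) (P : V → Prop) : 0 ≤ wt w X P :=
  Finset.sum_nonneg fun v _ => hw v

theorem wt_all (h : ∀ v ∈ X, P v) : wt w X P = ∑ v ∈ X, w v := by
  unfold wt
  rw [Finset.filter_true_of_mem h]

theorem wt_le_sum (hw : ∀ v, 0 ≤ w v) (X : Finset V) (P : V → Prop) : wt w X P ≤ ∑ v ∈ X, w v := by
  unfold wt
  exact Finset.sum_le_sum_of_subset_of_nonneg (Finset.filter_subset _ _) (fun v _ _ => hw v)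

theorem wt_congr (h : ∀ v ∈ X, (P v ↔ Q v)) : wt w X P = wt w X Q := by
  unfold wt
  rw [Finset.filter_congr h]

theorem wt_add_not (w : V → ℝ) (X : Finset V) (P : V → Prop) :
    wt w X P + wt w X (fun v => ¬ P v) = ∑ v ∈ X, w v := by
  classical
  rw [wt_eq_filter, wt_eq_filter]
  exact Finset.sum_filter_add_sum_filter_not X P w

theorem wt_filter (w : V → ℝ) (X : Finset V) (P Q : V → Prop) [DecidablePred P] :
    wt w (X.filter P) Q = wt w X (fun v => P v ∧ Q v) := by
  unfold wt
  refine Finset.sum_congr ?_ (fun _ _ => rfl)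
  ext v
  simp only [Finset.mem_filter]
  tauto

theorem wt_or_le (hw : ∀ v, 0 ≤ w v) (X : Finset V) (P Q : V → Prop) :
    wt w X (fun v => P v ∨ Q v) ≤ wt w X P + wt w X Q := by
  have e : X.filter (fun v => P v ∨ Q v) ⊆ X.filter P ∪ X.filter Q := by
    intro v
    simp only [Finset.mem_filter, Finset.mem_union]
    tauto
  have h := Finset.sum_union_inter (s₁ := X.filter P) (s₂ := X.filter Q) (f := w)
  have h2 : 0 ≤ ∑ v ∈ X.filter P ∩ X.filter Q, w v := Finset.sum_nonneg fun v _ => hw v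
  have h3 : wt w X (fun v => P v ∨ Q v) ≤ ∑ v ∈ X.filter P ∪ X.filter Q, w v := by
    unfold wt
    refine Finset.sum_le_sum_of_subset_of_nonneg ?_ (fun v _ _ => hw v)
    intro v hv
    apply e
    simpa only [Finset.mem_filter] using hv
  unfold wt at h3 ⊢
  linarith

end

end Pool.Agent.MP5f1228C
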