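import Mathlib
import Pool.Agent.Lib.MP_5f1228_co.C4.Defs

open scoped Classical
open Finset

namespace Pool.Agent.MP5f1228C

/-! ## module RK: the rank argument -/

/-- the vector of a word -/
noncomputable def rkV {n : ℕ} (c : Fin n → ℕ) : Finset (Fin n) → ℝ :=
  fun S => ∏ k ∈ S, (c k : ℝ)

/-- the functional of a word -/
noncomputable def rkF {n : ℕ} (c : Fin n → ℕ) (f : Finset (Fin n) → ℝ) : ℝ :=
  ∑ S : Finset (Fin n), f S * ∏ k ∈ univ \ S, (-(c k : ℝ))

theorem rkF_V {n : ℕ} (c c' : Fin n → ℕ) : rkF c' (rkV c) = ∏ k, ((c k : ℝ) - (c' k : ℝ)) := by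
  unfold rkF rkV
  have h := Finset.prod_add (fun k : Fin n => (c k : ℝ)) (fun k => -(c' k : ℝ)) univ
  simp only [← sub_eq_add_neg] at h
  rw [h, Finset.powerset_univ]

theorem rk_zero {n : ℕ} {c c' : Fin n → ℕ} (h : Mt c c') : rkF c' (rkV c) = 0 := by
  obtain ⟨k, hk⟩ := h
  rw [rkF_V]
  exact Finset.prod_eq_zero (mem_univ k) (by rw [hk, sub_self])

theorem rk_ne {n : ℕ} {c c' : Fin n → ℕ} (h : ¬ Mt c c') : rkF c' (rkV c) ≠ 0 := by
  rw [rkF_V]
  refine Finset.prod_ne_zero_iff.2 fun k _ hk => h ⟨k, ?_⟩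
  exact_mod_cast sub_eq_zero.1 hk

theorem rkF_add {n : ℕ} (c : Fin n → ℕ) (f g : Finset (Fin n) → ℝ) :
    rkF c (f + g) = rkF c f + rkF c g := by
  unfold rkF
  rw [← Finset.sum_add_distrib]
  exact Finset.sum_congr rfl fun S _ => by rw [Pi.add_apply]; ring

theorem rkF_smul_sum {n : ℕ} {ι : Type} [Fintype ι] (c : Fin n → ℕ) (g : ι → ℝ) (v : ι → Finset (Fin n) → ℝ) :
    rkF c (∑ i, g i • v i) = ∑ i, g i * rkF c (v i) := by
  unfold rkF
  simp only [Finset.mul_sum, Finset.sum_apply, Pi.smul_apply, smul_eq_mul, Finset.sum_mul]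
  rw [Finset.sum_comm]
  exact Finset.sum_congr rfl fun i _ => Finset.sum_congr rfl fun S _ => by ring

theorem rkF_zero {n : ℕ} (c : Fin n → ℕ) : rkF c (0 : Finset (Fin n) → ℝ) = 0 := by
  unfold rkF
  simp

theorem rank_block {n t : ℕ} {T : Type} [Fintype T] (a b : T → Fin n → ℕ) (u β : Fin t → Fin n → ℕ)
    (hab : ∀ x y, Mt (a x) (b y) ↔ x ≠ y) (huu : ∀ i j, Mt (u i) (u j))
    (hau : ∀ x i, Mt (a x) (u i)) (hbu : ∀ x i, Mt (b x) (u i))
    (hβ : ∀ i, ¬ Mt (β i) (u i)) (hβ' : ∀ i j, i < j → Mt (β j) (u i)) :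
    Fintype.card T + 2 * t ≤ 2 ^ n := by
  have key : LinearIndependent ℝ
      (Sum.elim (fun x => rkV (a x)) (Sum.elim (fun i => rkV (u i)) (fun i => rkV (β i))) :
        T ⊕ (Fin t ⊕ Fin t) → Finset (Fin n) → ℝ) := by
    rw [Fintype.linearIndependent_iff]
    intro g hg
    have hg' : ∀ c : Fin n → ℕ, ∑ x, g (Sum.inl x) * rkF c (rkV (a x)) +
        (∑ i, g (Sum.inr (Sum.inl i)) * rkF c (rkV (u i)) +
          ∑ i, g (Sum.inr (Sum.inr i)) * rkF c (rkV (β i))) = 0 := by
      intro c
      have h1 := congrArg (rkF c) hg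
      rw [rkF_smul_sum, rkF_zero, Fintype.sum_sum_type, Fintype.sum_sum_type] at h1
      exact h1
    have hδ : ∀ m : ℕ, ∀ j : Fin t, j.val = m → g (Sum.inr (Sum.inr j)) = 0 := by
      intro m
      induction m using Nat.strong_induction_on with
      | _ m ih =>
        intro j hj
        have h1 := hg' (u j)
        rw [Finset.sum_eq_zero (fun x _ => by rw [rk_zero (hau x j), mul_zero]),
          Finset.sum_eq_zero (fun i _ => by rw [rk_zero (huu i j), mul_zero]), zero_add, zero_add,
          Finset.sum_eq_single j] at h1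
        · rcases mul_eq_zero.1 h1 with h2 | h2
          · exact h2
          · exact absurd h2 (rk_ne (hβ j))
        · intro i _ hij
          rcases lt_or_gt_of_ne hij with h2 | h2
          · rw [ih i.val (by rw [← hj]; exact h2) i rfl, zero_mul]
          · rw [rk_zero (hβ' j i h2), mul_zero]
        · intro h2
          exact absurd (mem_univ j) h2
    have hδ' : ∀ j : Fin t, g (Sum.inr (Sum.inr j)) = 0 := fun j => hδ j.val j rfl
    have hα : ∀ y : T, g (Sum.inl y) = 0 := by
      intro y
      have h1 := hg' (b y)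
      rw [Finset.sum_eq_zero (s := univ) (f := fun i => g (Sum.inr (Sum.inl i)) * rkF (b y) (rkV (u i)))
          (fun i _ => by rw [rk_zero (hbu y i).symm, mul_zero]),
        Finset.sum_eq_zero (s := univ) (f := fun i => g (Sum.inr (Sum.inr i)) * rkF (b y) (rkV (β i)))
          (fun i _ => by rw [hδ' i, zero_mul]), add_zero, add_zero, Finset.sum_eq_single y] at h1
      · rcases mul_eq_zero.1 h1 with h2 | h2
        · exact h2
        · exact absurd h2 (rk_ne (fun h3 => (hab y y).1 h3 rfl))
      · intro x _ hxy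
        rw [rk_zero ((hab x y).2 hxy), mul_zero]
      · intro h2
        exact absurd (mem_univ y) h2
    have hγ : ∀ m : ℕ, ∀ j : Fin t, j.val + m = t → g (Sum.inr (Sum.inl j)) = 0 := by
      intro m
      induction m using Nat.strong_induction_on with
      | _ m ih =>
        intro j hj
        have h1 := hg' (β j)
        rw [Finset.sum_eq_zero (s := univ) (f := fun x => g (Sum.inl x) * rkF (β j) (rkV (a x)))
            (fun x _ => by rw [hα x, zero_mul]),
          Finset.sum_eq_zero (s := univ) (f := fun i => g (Sum.inr (Sum.inr i)) * rkF (β j) (rkV (β i)))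
            (fun i _ => by rw [hδ' i, zero_mul]), zero_add, add_zero, Finset.sum_eq_single j] at h1
        · rcases mul_eq_zero.1 h1 with h2 | h2
          · exact h2
          · exact absurd h2 (rk_ne (fun h3 => hβ j h3.symm))
        · intro i _ hij
          rcases lt_or_gt_of_ne hij with h2 | h2
          · rw [rk_zero (hβ' i j h2).symm, mul_zero]
          · have h3 : j.val < i.val := h2
            rw [ih (t - i.val) (by have := i.isLt; omega) i (by have := i.isLt; omega), zero_mul]
        · intro h2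
          exact absurd (mem_univ j) h2
    rintro (x | i | i)
    · exact hα x
    · exact hγ (t - i.val) i (by have := i.isLt; omega)
    · exact hδ' i
  have h1 := key.fintype_card_le_finrank
  rw [Module.finrank_pi, Fintype.card_sum, Fintype.card_sum, Fintype.card_fin, Fintype.card_finset,
    Fintype.card_fin] at h1
  omega

end Pool.Agent.MP5f1228C
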