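import Mathlib
import Pool.Agent.Lib.MP_5f1228_co.C4.Defs
import Pool.Agent.Lib.MP_5f1228_co.C4.RK

/-!
# MP_5f1228_co: the main inequality (module MI)
-/

open scoped Classical
open Finset

namespace Pool.Agent.MP5f1228C

namespace MIAux

variable {V : Type} [Fintype V] {n : ℕ} (l : V → Fin n → ℕ)

/-- every non-universal vertex is disjoint from some vertex of the set `T` of non-universal
vertices -/
def Cov (T : Finset V) : Prop :=
  (∀ a ∈ T, ¬ ∀ x, Mt (l x) (l a)) ∧ ∀ b, (¬ ∀ x, Mt (l x) (l b)) → ∃ a ∈ T, ¬ Mt (l b) (l a)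

theorem cov_all : Cov l (univ.filter fun u => ¬ ∀ x, Mt (l x) (l u)) := by
  refine ⟨fun a ha => (Finset.mem_filter.1 ha).2, fun b hb => ?_⟩
  obtain ⟨x, hx⟩ := not_forall.1 hb
  refine ⟨x, Finset.mem_filter.2 ⟨Finset.mem_univ _, ?_⟩, fun h => hx h.symm⟩
  intro h
  exact hx (h b).symm

theorem exists_min : ∃ T : Finset V, Cov l T ∧ ∀ a ∈ T, ∃ b : V, ¬ Mt (l b) (l a) ∧
    ∀ a' ∈ T, a' ≠ a → Mt (l b) (l a') := by
  obtain ⟨T, hT, hmin⟩ := Finset.exists_min_image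
    ((univ : Finset (Finset V)).filter fun T => Cov l T) Finset.card
    ⟨_, Finset.mem_filter.2 ⟨Finset.mem_univ _, cov_all l⟩⟩
  have hcov : Cov l T := (Finset.mem_filter.1 hT).2
  refine ⟨T, hcov, fun a ha => ?_⟩
  have hnot : ¬ Cov l (T.erase a) := by
    intro hc
    have h1 := hmin (T.erase a) (Finset.mem_filter.2 ⟨Finset.mem_univ _, hc⟩)
    have h2 := Finset.card_erase_lt_of_mem ha
    omega
  have h1 : ∃ b, (¬ ∀ x, Mt (l x) (l b)) ∧ ∀ a' ∈ T.erase a, Mt (l b) (l a') := by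
    by_contra hcon
    apply hnot
    refine ⟨fun a' ha' => hcov.1 a' (Finset.mem_of_mem_erase ha'), fun b hb => ?_⟩
    by_contra hb2
    apply hcon
    refine ⟨b, hb, fun a' ha' => ?_⟩
    by_contra hb3
    exact hb2 ⟨a', ha', hb3⟩
  obtain ⟨b, hb, hb'⟩ := h1
  obtain ⟨a0, ha0, hba0⟩ := hcov.2 b hb
  have haa : a0 = a := by
    by_contra hne
    exact hba0 (hb' a0 (Finset.mem_erase.2 ⟨hne, ha0⟩))
  refine ⟨b, haa ▸ hba0, fun a' ha' hne => hb' a' (Finset.mem_erase.2 ⟨hne, ha'⟩)⟩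

theorem sum_le (w : V → ℝ) (hw : ∀ v, 0 ≤ w v) (T : Finset V) (hT : Cov l T) :
    wt w univ (fun u => ¬ ∀ x, Mt (l x) (l u)) ≤
      ∑ a ∈ T, wt w univ (fun x => ¬ Mt (l x) (l a)) := by
  have h1 : ∀ a, wt w univ (fun x => ¬ Mt (l x) (l a)) =
      ∑ x, if ¬ Mt (l x) (l a) then w x else 0 := by
    intro a
    unfold wt
    rw [Finset.sum_filter]
    refine Finset.sum_congr rfl fun x _ => ?_
    by_cases hx : Mt (l x) (l a) <;> simp [hx]
  simp only [h1]
  rw [Finset.sum_comm]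
  unfold wt
  rw [Finset.sum_filter]
  refine Finset.sum_le_sum fun v _ => ?_
  by_cases hv : ¬ ∀ x, Mt (l x) (l v)
  · rw [if_pos hv]
    obtain ⟨a, ha, hva⟩ := hT.2 v hv
    have h2 := Finset.single_le_sum (f := fun a => if ¬ Mt (l v) (l a) then w v else 0)
      (fun a _ => by
        split_ifs
        · exact le_rfl
        · exact hw v) ha
    rw [if_pos hva] at h2
    exact h2
  · rw [if_neg hv]
    refine Finset.sum_nonneg fun a _ => ?_
    split_ifs
    · exact le_rfl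
    · exact hw v

theorem card_le {T : Finset V} (hmin : ∀ a ∈ T, ∃ b : V, ¬ Mt (l b) (l a) ∧
    ∀ a' ∈ T, a' ≠ a → Mt (l b) (l a')) {t : ℕ}
    (hU : Sk l (univ.filter fun u => ∀ x, Mt (l x) (l u)) t) : T.card + 2 * t ≤ 2 ^ n := by
  obtain ⟨u, β, hu, hβ, hβ'⟩ := hU
  have hu' : ∀ i x, Mt (l x) (l (u i)) := fun i => (Finset.mem_filter.1 (hu i)).2
  choose! b hb hb' using hmin
  have := rank_block (T := {a // a ∈ T}) (fun x => l x.1) (fun x => l (b x.1)) (fun i => l (u i)) β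
    (fun x y => ?_) (fun i j => hu' j _) (fun x i => hu' i _) (fun x i => hu' i _) hβ hβ'
  · rwa [Fintype.card_coe] at this
  · constructor
    · rintro h rfl
      exact hb x.1 x.2 h.symm
    · intro h
      exact (hb' y.1 y.2 x.1 x.2 fun h' => h (Subtype.ext h')).symm

end MIAux

open MIAux in
theorem main_ineq {V : Type} [Fintype V] {n : ℕ} (l : V → Fin n → ℕ) (w : V → ℝ) (hw : ∀ v, 0 ≤ w v)
    (hH : ∀ v, wt w univ (fun x => ¬ Mt (l x) (l v)) < 1) {t : ℕ}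
    (hU : Sk l (univ.filter fun u => ∀ x, Mt (l x) (l u)) t) :
    (∑ v, w v) - 2 ^ n + 2 * t ≤ wt w univ (fun u => ∀ x, Mt (l x) (l u)) := by
  obtain ⟨T, hcov, hmin⟩ := exists_min l
  have h1 := card_le l hmin hU
  have h2 := sum_le l w hw T hcov
  have h3 : ∑ a ∈ T, wt w univ (fun x => ¬ Mt (l x) (l a)) ≤ T.card := by
    have := Finset.sum_le_sum fun a (_ : a ∈ T) => (hH a).le
    simpa using this
  have h4 := wt_add_not w univ (fun u => ∀ x, Mt (l x) (l u))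
  have h5 : (T.card : ℝ) + 2 * t ≤ 2 ^ n := by exact_mod_cast h1
  linarith

open MIAux in
theorem exists_universal {V : Type} [Fintype V] [Nonempty V] {n : ℕ} (l : V → Fin n → ℕ) (w : V → ℝ)
    (hw : ∀ v, 0 ≤ w v) (hH : ∀ v, wt w univ (fun x => ¬ Mt (l x) (l v)) < 1)
    (hsum : 2 ^ n ≤ ∑ v, w v) : ∃ u, ∀ x, Mt (l x) (l u) := by
  by_contra hcon
  push Not at hcon
  obtain ⟨T, hcov, hmin⟩ := exists_min l
  have h0 : Sk l (univ.filter fun u => ∀ x, Mt (l x) (l u)) 0 :=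
    ⟨fun i => i.elim0, fun i => i.elim0, fun i => i.elim0, fun i => i.elim0, fun i => i.elim0⟩
  have h1 := card_le l hmin h0
  have h2 := sum_le l w hw T hcov
  have hnu : ∀ v, ¬ ∀ x, Mt (l x) (l v) := fun v hv => by
    obtain ⟨x, hx⟩ := hcon v
    exact hx (hv x)
  have hTne : T.Nonempty := by
    obtain ⟨v⟩ := ‹Nonempty V›
    obtain ⟨a, ha, _⟩ := hcov.2 v (hnu v)
    exact ⟨a, ha⟩
  have h3 : ∑ a ∈ T, wt w univ (fun x => ¬ Mt (l x) (l a)) < T.card := by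
    have := Finset.sum_lt_sum_of_nonempty hTne fun a _ => hH a
    simpa using this
  rw [wt_all fun v _ => hnu v] at h2
  have h5 : (T.card : ℝ) + 2 * ((0 : ℕ) : ℝ) ≤ 2 ^ n := by exact_mod_cast h1
  rw [Nat.cast_zero, mul_zero, add_zero] at h5
  linarith

end Pool.Agent.MP5f1228C
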