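import Mathlib
import Pool.Agent.Lib.MP_5f1228_co.C4.Defs

/-!
# MP_5f1228_co: the finite core of the case of four colours: basic facts on skew sequences
-/

open scoped Classical
open Finset

namespace Pool.Agent.MP5f1228C

theorem Sk.mono {V : Type} {n : ℕ} {l : V → Fin n → ℕ} {X Y : Finset V} {s t : ℕ} (hXY : X ⊆ Y) (hst : s ≤ t)
    (h : Sk l X t) : Sk l Y s := by
  obtain ⟨u, b, hu, hb, hm⟩ := h
  refine ⟨fun i => u (Fin.castLE hst i), fun i => b (Fin.castLE hst i), fun i => hXY (hu _),
    fun i => hb _, fun i j hij => hm _ _ ?_⟩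
  simpa using hij

/-- extension of a skew sequence: the test word `b` meets a subset `Y` of `X` but not all of `X` -/
theorem sk_succ {V : Type} {n : ℕ} (l : V → Fin n → ℕ) (X Y : Finset V) {t : ℕ} (hY : Y ⊆ X) (h : Sk l Y t)
    (b : Fin n → ℕ) (hb : ∀ v ∈ Y, Mt b (l v)) {z : V} (hz : z ∈ X) (hbz : ¬ Mt b (l z)) : Sk l X (t + 1) := by
  obtain ⟨u, c, hu, hc, hm⟩ := h
  refine ⟨Fin.snoc (α := fun _ => V) u z, Fin.snoc (α := fun _ => Fin n → ℕ) c b, ?_, ?_, ?_⟩
  · intro i
    refine Fin.lastCases ?_ (fun i => ?_) i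
    · rw [Fin.snoc_last]; exact hz
    · rw [Fin.snoc_castSucc]; exact hY (hu i)
  · intro i
    refine Fin.lastCases ?_ (fun i => ?_) i
    · rw [Fin.snoc_last, Fin.snoc_last]; exact hbz
    · rw [Fin.snoc_castSucc, Fin.snoc_castSucc]; exact hc i
  · intro i j
    refine Fin.lastCases ?_ (fun j => ?_) j
    · refine Fin.lastCases ?_ (fun i => ?_) i
      · intro h; exact absurd h (lt_irrefl _)
      · intro _
        rw [Fin.snoc_last, Fin.snoc_castSucc]
        exact hb _ (hu i)
    · refine Fin.lastCases ?_ (fun i => ?_) i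
      · intro h; exact absurd h (not_lt.2 (Fin.le_last _))
      · intro h
        rw [Fin.snoc_castSucc, Fin.snoc_castSucc]
        exact hm i j (by simpa using h)

theorem sk_one {V : Type} {n : ℕ} (l : V → Fin n → ℕ) (X : Finset V) (h : X.Nonempty) : Sk l X 1 := by
  obtain ⟨z, hz⟩ := h
  refine sk_succ l X ∅ (t := 0) (Finset.empty_subset _)
    ⟨Fin.elim0, Fin.elim0, fun i => i.elim0, fun i => i.elim0, fun i => i.elim0⟩
    (fun i => l z i + 1) (by simp) hz ?_
  rintro ⟨i, hi⟩
  dsimp only at hi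
  omega

theorem sk_two {V : Type} {n : ℕ} (l : V → Fin n → ℕ) (X : Finset V) {u v : V} (hu : u ∈ X) (hv : v ∈ X)
    (h : l u ≠ l v) : Sk l X 2 := by
  obtain ⟨i, hi⟩ := Function.ne_iff.1 h
  refine sk_succ l X {u} (t := 1) (Finset.singleton_subset_iff.2 hu) (sk_one l _ ⟨u, by simp⟩)
    (fun j => if j = i then l u i else l v j + 1) ?_ hv ?_
  · intro x hx
    rw [Finset.mem_singleton.1 hx]
    exact ⟨i, by simp⟩
  · rintro ⟨j, hj⟩
    dsimp only at hj
    split_ifs at hj with h1
    · subst h1; exact hi hj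
    · omega

/-- one agreement of exactly two words -/
theorem sk_three_aux {V : Type} {n : ℕ} (l : V → Fin n → ℕ) (X : Finset V) {x y t : V} (hx : x ∈ X)
    (hy : y ∈ X) (ht : t ∈ X) (hxy : l x ≠ l y) (i : Fin n) (h1 : l x i = l y i) (h2 : l x i ≠ l t i) :
    Sk l X 3 := by
  refine sk_succ l X {x, y} (t := 2) ?_ (sk_two l _ (u := x) (v := y) (by simp) (by simp) hxy)
    (fun j => if j = i then l x i else l t j + 1) ?_ ht ?_
  · intro v hv
    rcases Finset.mem_insert.1 hv with rfl | hv
    · exact hx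
    · rw [Finset.mem_singleton.1 hv]; exact hy
  · intro v hv
    refine ⟨i, ?_⟩
    rcases Finset.mem_insert.1 hv with rfl | hv
    · simp
    · rw [Finset.mem_singleton.1 hv]; simp [h1]
  · rintro ⟨j, hj⟩
    dsimp only at hj
    split_ifs at hj with h3
    · subst h3; exact h2 hj
    · omega

/-- three vertices with different words which do not lie on a line -/
theorem sk_three {V : Type} {n : ℕ} (l : V → Fin n → ℕ) (X : Finset V) {u v z : V} (hu : u ∈ X) (hv : v ∈ X)
    (hz : z ∈ X) (huv : l u ≠ l v) (huz : l u ≠ l z) (hvz : l v ≠ l z)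
    (hl : ∀ i, ∃ j, j ≠ i ∧ ¬ (l u j = l v j ∧ l u j = l z j)) : Sk l X 3 := by
  by_cases h1 : ∃ i, l u i = l v i ∧ l u i ≠ l z i
  · obtain ⟨i, h1, h2⟩ := h1
    exact sk_three_aux l X hu hv hz huv i h1 h2
  by_cases h2 : ∃ i, l u i = l z i ∧ l u i ≠ l v i
  · obtain ⟨i, h2, h3⟩ := h2
    exact sk_three_aux l X hu hz hv huz i h2 h3
  by_cases h3 : ∃ i, l v i = l z i ∧ l v i ≠ l u i
  · obtain ⟨i, h3, h4⟩ := h3
    exact sk_three_aux l X hv hz hu hvz i h3 h4
  -- all equal or all different in each coordinate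
  have key : ∀ i, ¬ (l u i = l v i ∧ l u i = l z i) → l u i ≠ l z i ∧ l v i ≠ l z i := by
    intro i hi
    push Not at h1 h2 h3
    refine ⟨fun h => hi ⟨h2 i h, h⟩, fun h => ?_⟩
    have h5 := h3 i h
    exact hi ⟨h5.symm, h5.symm.trans h⟩
  obtain ⟨i, hi⟩ := Function.ne_iff.1 huv
  have hi' := key i (fun h => hi h.1)
  obtain ⟨k, hk, hk'⟩ := hl i
  have hk'' := key k hk'
  refine sk_succ l X {u, v} (t := 2) ?_ (sk_two l _ (u := u) (v := v) (by simp) (by simp) huv)
    (fun j => if j = i then l u i else if j = k then l v k else l z j + 1) ?_ hz ?_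
  · intro x hx
    rcases Finset.mem_insert.1 hx with rfl | hx
    · exact hu
    · rw [Finset.mem_singleton.1 hx]; exact hv
  · intro x hx
    rcases Finset.mem_insert.1 hx with rfl | hx
    · exact ⟨i, by simp⟩
    · rw [Finset.mem_singleton.1 hx]
      exact ⟨k, by simp [hk]⟩
  · rintro ⟨j, hj⟩
    dsimp only at hj
    split_ifs at hj with h4 h5
    · subst h4; exact hi'.1 hj
    · subst h5; exact hk''.2 hj
    · omega

/-- additivity -/
theorem sk_add {V : Type} {n : ℕ} (l : V → Fin (n + 1) → ℕ) (X : Finset V) (i : Fin (n + 1)) (K : ℕ) {s t : ℕ}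
    (h1 : Sk (fun v => i.removeNth (l v)) (X.filter fun v => l v i = K) s)
    (h2 : Sk (fun v => i.removeNth (l v)) (X.filter fun v => l v i ≠ K) t) : Sk l X (s + t) := by
  obtain ⟨u2, b2, hu2, hb2, hm2⟩ := h2
  have key : ∀ (t : ℕ) (u2 : Fin t → V) (b2 : Fin t → Fin n → ℕ),
      (∀ j, u2 j ∈ X.filter fun v => l v i ≠ K) → (∀ j, ¬ Mt (b2 j) (i.removeNth (l (u2 j)))) →
      (∀ j k, j < k → Mt (b2 k) (i.removeNth (l (u2 j)))) →
      Sk l ((X.filter fun v => l v i = K) ∪ univ.image u2) (s + t) := by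
    intro t
    induction t with
    | zero =>
      intro u2 b2 _ _ _
      obtain ⟨u1, b1, hu1, hb1, hm1⟩ := h1
      refine ⟨u1, fun j => i.insertNth (K + 1) (b1 j), fun j => Finset.mem_union_left _ (hu1 j), ?_, ?_⟩
      · rintro j ⟨k, hk⟩
        rcases eq_or_ne k i with rfl | hki
        · have h3 := (Finset.mem_filter.1 (hu1 j)).2
          dsimp only at hk
          rw [Fin.insertNth_apply_same, h3] at hk
          omega
        · obtain ⟨k, rfl⟩ := Fin.exists_succAbove_eq hki
          dsimp only at hk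
          rw [Fin.insertNth_apply_succAbove] at hk
          exact hb1 j ⟨k, hk⟩
      · intro j k hjk
        obtain ⟨m, hm⟩ := hm1 j k hjk
        refine ⟨i.succAbove m, ?_⟩
        dsimp only
        rw [Fin.insertNth_apply_succAbove]
        exact hm
    | succ t ih =>
      intro u2 b2 hu hb hm
      have h3 := ih (fun j => u2 j.castSucc) (fun j => b2 j.castSucc) (fun j => hu _) (fun j => hb _)
        (fun j k hjk => hm _ _ (by simpa using hjk))
      refine sk_succ l _ _ (t := s + t) ?_ h3 (i.insertNth K (b2 (Fin.last t))) ?_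
        (z := u2 (Fin.last t)) ?_ ?_
      · refine Finset.union_subset_union_right ?_
        intro x hx
        obtain ⟨j, _, rfl⟩ := Finset.mem_image.1 hx
        exact Finset.mem_image_of_mem _ (Finset.mem_univ _)
      · intro v hv
        rcases Finset.mem_union.1 hv with hv | hv
        · refine ⟨i, ?_⟩
          rw [Fin.insertNth_apply_same]
          exact (Finset.mem_filter.1 hv).2.symm
        · obtain ⟨j, _, rfl⟩ := Finset.mem_image.1 hv
          obtain ⟨m, hm'⟩ := hm j.castSucc (Fin.last t) (Fin.castSucc_lt_last j)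
          exact ⟨i.succAbove m, by rw [Fin.insertNth_apply_succAbove]; exact hm'⟩
      · exact Finset.mem_union_right _ (Finset.mem_image_of_mem _ (Finset.mem_univ _))
      · rintro ⟨k, hk⟩
        rcases eq_or_ne k i with rfl | hki
        · have h4 := (Finset.mem_filter.1 (hu (Fin.last t))).2
          rw [Fin.insertNth_apply_same] at hk
          exact h4 hk.symm
        · obtain ⟨k, rfl⟩ := Fin.exists_succAbove_eq hki
          rw [Fin.insertNth_apply_succAbove] at hk
          exact hb (Fin.last t) ⟨k, hk⟩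
  refine Sk.mono ?_ le_rfl (key t u2 b2 hu2 hb2 hm2)
  intro x hx
  rcases Finset.mem_union.1 hx with hx | hx
  · exact (Finset.mem_filter.1 hx).1
  · obtain ⟨j, _, rfl⟩ := Finset.mem_image.1 hx
    exact (Finset.mem_filter.1 (hu2 j)).1

end Pool.Agent.MP5f1228C
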