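import Mathlib
import Pool.Agent.Lib.MP_5f1228_co.C4.SB

/-!
# MP_5f1228_co: the finite core of the case of four colours: weights force two or three points
-/

open scoped Classical
open Finset

namespace Pool.Agent.MP5f1228C

/-- a set of small weight does not contain everything -/
theorem exists_not_of_wt_lt {V : Type} (w : V → ℝ) (X : Finset V) (P : V → Prop)
    (h : wt w X P < ∑ v ∈ X, w v) : ∃ v ∈ X, ¬ P v := by
  by_contra hcon
  push Not at hcon
  rw [wt_all hcon] at h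
  exact lt_irrefl _ h

theorem sk_two_wt {V : Type} {n : ℕ} (l : V → Fin n → ℕ) (w : V → ℝ) (hw : ∀ v, 0 ≤ w v) (X : Finset V) {c : ℝ}
    (hp : ∀ K : Fin n → ℕ, wt w X (fun v => l v = K) < c) (hX : c ≤ ∑ v ∈ X, w v) (hne : X.Nonempty) :
    Sk l X 2 := by
  obtain ⟨u, hu⟩ := hne
  obtain ⟨v, hv, hvu⟩ := exists_not_of_wt_lt w X _ (lt_of_lt_of_le (hp (l u)) hX)
  exact sk_two l X hv hu hvu

theorem sk_three_wt {V : Type} {n : ℕ} (l : V → Fin n → ℕ) (w : V → ℝ) (hw : ∀ v, 0 ≤ w v) (X : Finset V)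
    {c d : ℝ} (hp : ∀ K : Fin n → ℕ, wt w X (fun v => l v = K) < c)
    (hl : ∀ (i : Fin n) (K : Fin n → ℕ), wt w X (fun v => ∀ j, j ≠ i → l v j = K j) < d)
    (hX : 2 * c ≤ ∑ v ∈ X, w v) (hXd : d ≤ ∑ v ∈ X, w v) (hne : X.Nonempty) : Sk l X 3 := by
  obtain ⟨u, hu⟩ := hne
  have hc : 0 < c := lt_of_le_of_lt (wt_nonneg hw X _) (hp (l u))
  obtain ⟨v, hv, hvu⟩ := exists_not_of_wt_lt w X _
    (lt_of_lt_of_le (hp (l u)) (le_trans (by linarith) hX))
  obtain ⟨z, hz, hz'⟩ := exists_not_of_wt_lt w X (fun x => l x = l u ∨ l x = l v) (by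
    have h1 := wt_or_le hw X (fun x => l x = l u) (fun x => l x = l v)
    have h2 := hp (l u)
    have h3 := hp (l v)
    linarith)
  push Not at hz'
  by_cases hline : ∀ i, ∃ j, j ≠ i ∧ ¬ (l u j = l v j ∧ l u j = l z j)
  · exact sk_three l X hu hv hz (Ne.symm hvu) (Ne.symm hz'.1) (Ne.symm hz'.2) hline
  push Not at hline
  obtain ⟨i, hi⟩ := hline
  obtain ⟨y, hy, hy'⟩ := exists_not_of_wt_lt w X _ (lt_of_lt_of_le (hl i (l u)) hXd)
  push Not at hy'
  obtain ⟨j, hj, hyj⟩ := hy'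
  have huvi : l u i ≠ l v i := by
    intro h
    apply hvu
    funext k
    rcases eq_or_ne k i with rfl | hk
    · exact h.symm
    · exact ((hi k hk).1).symm
  refine sk_three l X hu hv hy (Ne.symm hvu) (fun h => hyj (by rw [h])) (fun h => hyj ?_) ?_
  · rw [← h, (hi j hj).1]
  · intro i'
    rcases eq_or_ne i' i with rfl | hi'
    · exact ⟨j, hj, fun h => hyj h.2.symm⟩
    · exact ⟨i, Ne.symm hi', fun h => huvi h.1⟩

end Pool.Agent.MP5f1228C
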