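import Mathlib
import Pool.Agent.Lib.MP_5f1228_co.C4.SW

/-!
# MP_5f1228_co: the finite core of the case of four colours: weight `4c` forces four points
-/

open scoped Classical
open Finset

namespace Pool.Agent.MP5f1228C

/-! ## module S4: (3.1) (uses SB, SW) -/
theorem sk_four {V : Type} (l : V → Fin 3 → ℕ) (w : V → ℝ) (hw : ∀ v, 0 ≤ w v) (X : Finset V) {c : ℝ} (hc : 0 < c)
    (hL : Lt3 l w X c (2 * c) (4 * c)) (hX : 4 * c ≤ ∑ v ∈ X, w v) : Sk l X 4 := by
  obtain ⟨hp, hl, hpl⟩ := hL
  by_cases hA : ∃ (i : Fin 3) (K : ℕ), 2 * c ≤ wt w X (fun v => l v i = K)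
  · -- a plane section of weight at least `2c`
    obtain ⟨i, K, hK⟩ := hA
    have hsum : ∑ v ∈ X.filter (fun v => l v i = K), w v = wt w X (fun v => l v i = K) :=
      (wt_eq_filter w X _).symm
    have hne : (X.filter (fun v => l v i = K)).Nonempty := by
      rw [Finset.nonempty_iff_ne_empty]
      intro h
      rw [h, Finset.sum_empty] at hsum
      linarith
    have h3 : Sk l (X.filter (fun v => l v i = K)) 3 := by
      refine sk_three_wt l w hw _ (c := c) (d := 2 * c) (fun K' => ?_) (fun j K' => ?_)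
        (by rw [hsum]; exact hK) (by rw [hsum]; exact hK) hne
      · refine lt_of_le_of_lt (wt_mono hw fun v hv h => ⟨(Finset.mem_filter.1 hv).1, ?_⟩) (hp K')
        exact h
      · refine lt_of_le_of_lt (wt_mono hw fun v hv h => ⟨(Finset.mem_filter.1 hv).1, ?_⟩) (hl j K')
        exact h
    obtain ⟨z, hz, hz'⟩ := exists_not_of_wt_lt w X _ (lt_of_lt_of_le (hpl i K) hX)
    refine sk_succ l X _ (t := 3) (Finset.filter_subset _ _) h3
      (fun j => if j = i then K else l z j + 1) ?_ hz ?_
    · intro v hv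
      exact ⟨i, by simp [(Finset.mem_filter.1 hv).2]⟩
    · rintro ⟨j, hj⟩
      dsimp only at hj
      split_ifs at hj with h4
      · subst h4; exact hz' hj.symm
      · omega
  push Not at hA
  by_cases hB : ∃ a ∈ X, ∃ b ∈ X, l a ≠ l b ∧ ∃ i, l a i = l b i
  · obtain ⟨a, ha, b, hb, hab, i, hi⟩ := hB
    obtain ⟨d, hd, hd'⟩ := exists_not_of_wt_lt w X (fun v => l v i = l a i)
      (lt_of_lt_of_le (hpl i _) hX)
    obtain ⟨j, hj⟩ : ∃ j : Fin 3, j ≠ i := exists_ne i
    obtain ⟨z, hz, hz'⟩ := exists_not_of_wt_lt w X (fun v => l v i = l a i ∨ l v j = l d j) (by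
      have h1 := wt_or_le hw X (fun v => l v i = l a i) (fun v => l v j = l d j)
      have h2 := hA i (l a i)
      have h3 := hA j (l d j)
      linarith)
    push Not at hz'
    have hsub : ({a, b, d} : Finset V) ⊆ X := by
      intro v hv
      simp only [Finset.mem_insert, Finset.mem_singleton] at hv
      rcases hv with rfl | rfl | rfl
      · exact ha
      · exact hb
      · exact hd
    refine sk_succ l X {a, b, d} (t := 3) hsub (sk_three l _ (u := a) (v := b) (z := d) (by simp) (by simp)
      (by simp) hab (fun h => hd' (by rw [h])) (fun h => hd' (by rw [← h, hi])) ?_)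
      (fun k => if k = i then l a i else if k = j then l d j else l z k + 1) ?_ hz ?_
    · intro i'
      rcases eq_or_ne i' i with rfl | hi'
      · -- `a` and `b` differ outside `i`
        obtain ⟨k, hk⟩ := Function.ne_iff.1 hab
        refine ⟨k, ?_, fun h => hk h.1⟩
        rintro rfl
        exact hk hi
      · exact ⟨i, Ne.symm hi', fun h => hd' h.2.symm⟩
    · intro v hv
      simp only [Finset.mem_insert, Finset.mem_singleton] at hv
      rcases hv with rfl | rfl | rfl
      · exact ⟨i, by simp⟩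
      · exact ⟨i, by simp [hi]⟩
      · exact ⟨j, by simp [hj]⟩
    · rintro ⟨k, hk⟩
      dsimp only at hk
      split_ifs at hk with h4 h5
      · subst h4; exact hz'.1 hk.symm
      · subst h5; exact hz'.2 hk.symm
      · omega
  · -- different words are disjoint
    push Not at hB
    obtain ⟨a₁, h₁⟩ : X.Nonempty := by
      rw [Finset.nonempty_iff_ne_empty]
      intro h
      rw [h, Finset.sum_empty] at hX
      linarith
    obtain ⟨a₂, h₂, h₂'⟩ := exists_not_of_wt_lt w X (fun v => l v = l a₁) (by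
      have := hp (l a₁)
      linarith)
    obtain ⟨a₃, h₃, h₃'⟩ := exists_not_of_wt_lt w X (fun v => l v = l a₁ ∨ l v = l a₂) (by
      have := hp (l a₁)
      have := hp (l a₂)
      have := wt_or_le hw X (fun v => l v = l a₁) (fun v => l v = l a₂)
      linarith)
    obtain ⟨a₄, h₄, h₄'⟩ := exists_not_of_wt_lt w X (fun v => l v = l a₁ ∨ (l v = l a₂ ∨ l v = l a₃)) (by
      have := hp (l a₁)
      have := hp (l a₂)
      have := hp (l a₃)
      have := wt_or_le hw X (fun v => l v = l a₂) (fun v => l v = l a₃)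
      have := wt_or_le hw X (fun v => l v = l a₁) (fun v => l v = l a₂ ∨ l v = l a₃)
      linarith)
    push Not at h₃' h₄'
    have hsub : ({a₁, a₂, a₃} : Finset V) ⊆ X := by
      intro v hv
      simp only [Finset.mem_insert, Finset.mem_singleton] at hv
      rcases hv with rfl | rfl | rfl
      · exact h₁
      · exact h₂
      · exact h₃
    refine sk_succ l X {a₁, a₂, a₃} (t := 3) hsub
      (sk_three l _ (u := a₁) (v := a₂) (z := a₃) (by simp) (by simp)
      (by simp) (Ne.symm h₂') (Ne.symm h₃'.1) (Ne.symm h₃'.2) ?_)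
      (fun k => if k = 0 then l a₁ 0 else if k = 1 then l a₂ 1 else l a₃ 2) ?_ h₄ ?_
    · intro i
      obtain ⟨j, hj⟩ : ∃ j : Fin 3, j ≠ i := exists_ne i
      exact ⟨j, hj, fun h => hB a₁ h₁ a₂ h₂ (Ne.symm h₂') j h.1⟩
    · intro v hv
      simp only [Finset.mem_insert, Finset.mem_singleton] at hv
      rcases hv with rfl | rfl | rfl
      · exact ⟨0, by simp⟩
      · exact ⟨1, by simp⟩
      · exact ⟨2, by simp⟩
    · rintro ⟨k, hk⟩
      dsimp only at hk
      split_ifs at hk with h5 h6
      · subst h5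
        exact hB a₁ h₁ a₄ h₄ (Ne.symm h₄'.1) 0 hk
      · subst h6
        exact hB a₂ h₂ a₄ h₄ (Ne.symm h₄'.2.1) 1 hk
      · have h7 : k = 2 := by omega
        subst h7
        exact hB a₃ h₃ a₄ h₄ (Ne.symm h₄'.2.2) 2 hk

end Pool.Agent.MP5f1228C
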