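import Mathlib
import Pool.Agent.Lib.MP_5f1228_co.C4.SW

/-!
# MP_5f1228_co: sk_five and sk_five'
-/

open scoped Classical
open Finset

namespace Pool.Agent.MP5f1228C

namespace S5Aux

section
variable {V : Type} (l : V → Fin 3 → ℕ) (w : V → ℝ) (hw : ∀ v, 0 ≤ w v) (X : Finset V)

include hw

theorem pt_A (i : Fin 3) (K : ℕ) (K' : Fin 2 → ℕ) :
    wt w (X.filter fun v => l v i = K) (fun v => i.removeNth (l v) = K') ≤
      wt w X (fun v => l v = i.insertNth K K') := by
  refine wt_mono hw fun v hv h => ?_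
  obtain ⟨hvX, hvK⟩ := Finset.mem_filter.1 hv
  refine ⟨hvX, ?_⟩
  rw [← hvK, ← h, Fin.insertNth_self_removeNth]

theorem ln_A (i : Fin 3) (K : ℕ) (i' : Fin 2) (K' : Fin 2 → ℕ) :
    wt w (X.filter fun v => l v i = K) (fun v => ∀ j, j ≠ i' → i.removeNth (l v) j = K' j) ≤
      wt w X (fun v => ∀ j, j ≠ i.succAbove i' →
        l v j = (i.insertNth K K' : Fin 3 → ℕ) j) := by
  refine wt_mono hw fun v hv h => ?_
  obtain ⟨hvX, hvK⟩ := Finset.mem_filter.1 hv
  refine ⟨hvX, fun j hj => ?_⟩
  by_cases hji : j = i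
  · subst hji
    rw [Fin.insertNth_apply_same]
    exact hvK
  · obtain ⟨m, rfl⟩ := Fin.exists_succAbove_eq hji
    rw [Fin.insertNth_apply_succAbove]
    exact h m (fun hm => hj (by rw [hm]))

theorem pt_B (i : Fin 3) (K : ℕ) (K' : Fin 2 → ℕ) :
    wt w (X.filter fun v => l v i ≠ K) (fun v => i.removeNth (l v) = K') ≤
      wt w X (fun v => ∀ j, j ≠ i → l v j = (i.insertNth K K' : Fin 3 → ℕ) j) := by
  refine wt_mono hw fun v hv h => ?_
  refine ⟨(Finset.mem_filter.1 hv).1, fun j hj => ?_⟩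
  obtain ⟨m, rfl⟩ := Fin.exists_succAbove_eq hj
  rw [Fin.insertNth_apply_succAbove, ← h]
  rfl

theorem ln_B (i : Fin 3) (K : ℕ) (i' j₀ : Fin 2) (h₀ : j₀ ≠ i') (K' : Fin 2 → ℕ) :
    wt w (X.filter fun v => l v i ≠ K) (fun v => ∀ j, j ≠ i' → i.removeNth (l v) j = K' j) ≤
      wt w X (fun v => l v (i.succAbove j₀) = K' j₀) := by
  refine wt_mono hw fun v hv h => ?_
  exact ⟨(Finset.mem_filter.1 hv).1, h j₀ h₀⟩

variable {c : ℝ} (hc : 0 < c) (hp : ∀ K : Fin 3 → ℕ, wt w X (fun v => l v = K) < c)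
  (hl : ∀ (i : Fin 3) (K : Fin 3 → ℕ), wt w X (fun v => ∀ j, j ≠ i → l v j = K j) < 2 * c)

omit hw in
theorem nonempty_of (P : V → Prop) [DecidablePred P] (h : 0 < wt w X P) :
    (X.filter P).Nonempty := by
  rw [wt_eq_filter] at h
  by_contra hne
  rw [Finset.not_nonempty_iff_eq_empty] at hne
  rw [hne] at h
  simp at h

include hc hp hl in
theorem A3 (i : Fin 3) (K : ℕ) (h : 2 * c ≤ wt w X (fun v => l v i = K)) :
    Sk (fun v => i.removeNth (l v)) (X.filter fun v => l v i = K) 3 := by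
  have h0 : 0 < wt w X (fun v => l v i = K) := by linarith
  refine sk_three_wt _ w hw _ (c := c) (d := 2 * c) (fun K' => ?_) (fun i' K' => ?_) ?_ ?_
    (nonempty_of w X _ h0)
  · exact lt_of_le_of_lt (pt_A l w hw X i K K') (hp _)
  · exact lt_of_le_of_lt (ln_A l w hw X i K i' K') (hl _ _)
  · rw [← wt_eq_filter]; exact h
  · rw [← wt_eq_filter]; exact h

include hc hp in
theorem A2 (i : Fin 3) (K : ℕ) (h : c ≤ wt w X (fun v => l v i = K)) :
    Sk (fun v => i.removeNth (l v)) (X.filter fun v => l v i = K) 2 := by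
  have h0 : 0 < wt w X (fun v => l v i = K) := by linarith
  refine sk_two_wt _ w hw _ (c := c) (fun K' => ?_) ?_ (nonempty_of w X _ h0)
  · exact lt_of_le_of_lt (pt_A l w hw X i K K') (hp _)
  · rw [← wt_eq_filter]; exact h

include hc hl in
theorem B2 (i : Fin 3) (K : ℕ) (h : 2 * c ≤ wt w X (fun v => l v i ≠ K)) :
    Sk (fun v => i.removeNth (l v)) (X.filter fun v => l v i ≠ K) 2 := by
  have h0 : 0 < wt w X (fun v => l v i ≠ K) := by linarith
  refine sk_two_wt _ w hw _ (c := 2 * c) (fun K' => ?_) ?_ (nonempty_of w X _ h0)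
  · exact lt_of_le_of_lt (pt_B l w hw X i K K') (hl _ _)
  · rw [← wt_eq_filter]; exact h

include hc hl in
theorem B3 (hP : ∀ (i : Fin 3) (K : ℕ), wt w X (fun v => l v i = K) < 2 * c)
    (i : Fin 3) (K : ℕ) (h : 4 * c ≤ wt w X (fun v => l v i ≠ K)) :
    Sk (fun v => i.removeNth (l v)) (X.filter fun v => l v i ≠ K) 3 := by
  have h0 : 0 < wt w X (fun v => l v i ≠ K) := by linarith
  refine sk_three_wt _ w hw _ (c := 2 * c) (d := 2 * c) (fun K' => ?_) (fun i' K' => ?_) ?_ ?_
    (nonempty_of w X _ h0)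
  · exact lt_of_le_of_lt (pt_B l w hw X i K K') (hl _ _)
  · obtain ⟨j₀, hj₀⟩ : ∃ j₀ : Fin 2, j₀ ≠ i' := exists_ne i'
    exact lt_of_le_of_lt (ln_B l w hw X i K i' j₀ hj₀ K') (hP _ _)
  · rw [← wt_eq_filter]; linarith
  · rw [← wt_eq_filter]; linarith

omit hw in
include hc hp in
theorem exists_notMem (S : Finset (Fin 3 → ℕ)) (hS : S.card ≤ 3) (hX : 3 * c ≤ ∑ v ∈ X, w v) :
    ∃ v ∈ X, l v ∉ S := by
  by_contra hcon
  push Not at hcon
  have h1 : ∑ K ∈ S, ∑ v ∈ X.filter (fun v => l v = K), w v = ∑ v ∈ X, w v :=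
    Finset.sum_fiberwise_of_maps_to hcon w
  have h2 : ∀ K ∈ S, ∑ v ∈ X.filter (fun v => l v = K), w v ≤ c := by
    intro K _
    rw [← wt_eq_filter]
    exact (hp K).le
  rcases S.eq_empty_or_nonempty with hE | hE
  · rw [hE, Finset.sum_empty] at h1
    linarith
  · have h3 : ∑ K ∈ S, ∑ v ∈ X.filter (fun v => l v = K), w v < ∑ _K ∈ S, c := by
      refine Finset.sum_lt_sum h2 ?_
      obtain ⟨K, hK⟩ := hE
      refine ⟨K, hK, ?_⟩
      rw [← wt_eq_filter]
      exact hp K
    rw [Finset.sum_const, nsmul_eq_mul] at h3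
    have h4 : (S.card : ℝ) ≤ 3 := by exact_mod_cast hS
    nlinarith

omit hw in
include hc hp in
theorem pd_four (hd : ∀ u ∈ X, ∀ v ∈ X, Mt (l u) (l v) → l u = l v)
    (hX : 3 * c ≤ ∑ v ∈ X, w v) : ∃ f : Fin 4 → V, (∀ i, f i ∈ X) ∧ PD l f := by
  obtain ⟨v0, h0, -⟩ := exists_notMem l w X hc hp ∅ (by simp) hX
  obtain ⟨v1, h1, h1'⟩ := exists_notMem l w X hc hp {l v0} (by simp) hX
  obtain ⟨v2, h2, h2'⟩ := exists_notMem l w X hc hp {l v0, l v1} (Finset.card_le_two.trans
    (by norm_num)) hX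
  obtain ⟨v3, h3, h3'⟩ := exists_notMem l w X hc hp {l v0, l v1, l v2} Finset.card_le_three hX
  simp only [Finset.mem_singleton, Finset.mem_insert, not_or] at h1' h2' h3'
  refine ⟨![v0, v1, v2, v3], ?_, ?_⟩
  · intro i
    fin_cases i
    · exact h0
    · exact h1
    · exact h2
    · exact h3
  · intro i j hij hM
    fin_cases i <;> fin_cases j
    · exact hij rfl
    · exact h1' (hd _ h0 _ h1 hM).symm
    · exact h2'.1 (hd _ h0 _ h2 hM).symm
    · exact h3'.1 (hd _ h0 _ h3 hM).symm
    · exact h1' (hd _ h1 _ h0 hM)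
    · exact hij rfl
    · exact h2'.2 (hd _ h1 _ h2 hM).symm
    · exact h3'.2.1 (hd _ h1 _ h3 hM).symm
    · exact h2'.1 (hd _ h2 _ h0 hM)
    · exact h2'.2 (hd _ h2 _ h1 hM)
    · exact hij rfl
    · exact h3'.2.2 (hd _ h2 _ h3 hM).symm
    · exact h3'.1 (hd _ h3 _ h0 hM)
    · exact h3'.2.1 (hd _ h3 _ h1 hM)
    · exact h3'.2.2 (hd _ h3 _ h2 hM)
    · exact hij rfl

omit hw in
theorem removeNth_ne {a b : Fin 3 → ℕ} (i : Fin 3) (hi : a i = b i) (h : a ≠ b) :
    i.removeNth a ≠ i.removeNth b := by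
  intro he
  apply h
  rw [← Fin.insertNth_self_removeNth i a, ← Fin.insertNth_self_removeNth i b, he, hi]

omit hw in
theorem split (i : Fin 3) (K : ℕ) :
    wt w X (fun v => l v i = K) + wt w X (fun v => l v i ≠ K) = ∑ v ∈ X, w v :=
  wt_add_not w X (fun v => l v i = K)

include hc hp hl in
/-- all planes light -/
theorem case3 (hP : ∀ (i : Fin 3) (K : ℕ), wt w X (fun v => l v i = K) < c)
    (hX : 5 * c ≤ ∑ v ∈ X, w v) :
    Sk l X 5 ∨ ∃ f : Fin 4 → V, (∀ i, f i ∈ X) ∧ PD l f := by
  by_cases h3 : ∀ u ∈ X, ∀ v ∈ X, Mt (l u) (l v) → l u = l v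
  · right
    exact pd_four l w X hc hp h3 (by linarith)
  · left
    push Not at h3
    obtain ⟨u, hu, v, hv, ⟨i, hi⟩, hne⟩ := h3
    refine sk_add (s := 2) (t := 3) l X i (l u i) ?_ ?_
    · refine sk_two _ _ (u := u) (v := v) (Finset.mem_filter.2 ⟨hu, rfl⟩)
        (Finset.mem_filter.2 ⟨hv, hi.symm⟩) (removeNth_ne i hi hne)
    · refine B3 l w hw X hc hl (fun i K => by have := hP i K; linarith) i (l u i) ?_
      have h1 := split l w X i (l u i)
      have h2 := hP i (l u i)
      linarith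

end

/-- finite geometry of words of length two: a set of such words which is constant in no coordinate
has three non-collinear points or consists of two points -/
theorem two_points {V : Type} (l : V → Fin 2 → ℕ) (B : Finset V) (hB : B.Nonempty)
    (hc : ∀ j : Fin 2, ∃ u ∈ B, ∃ v ∈ B, l u j ≠ l v j) :
    (∃ u ∈ B, ∃ v ∈ B, ∃ z ∈ B, l u ≠ l v ∧ l u ≠ l z ∧ l v ≠ l z ∧
      ∀ i, ∃ j, j ≠ i ∧ ¬ (l u j = l v j ∧ l u j = l z j)) ∨
    ∃ s s' : Fin 2 → ℕ, (∀ j, s j ≠ s' j) ∧ ∀ v ∈ B, l v = s ∨ l v = s' := by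
  by_cases h : ∃ u ∈ B, ∃ v ∈ B, ∃ z ∈ B, l u ≠ l v ∧ l u ≠ l z ∧ l v ≠ l z ∧
      ∀ i, ∃ j, j ≠ i ∧ ¬ (l u j = l v j ∧ l u j = l z j)
  · exact Or.inl h
  · right
    push Not at h
    -- any three different points have a constant coordinate
    have key : ∀ u ∈ B, ∀ v ∈ B, ∀ z ∈ B, l u ≠ l v → l u ≠ l z → l v ≠ l z →
        ∃ j, l u j = l v j ∧ l u j = l z j := by
      intro u hu v hv z hz h1 h2 h3
      obtain ⟨i, hi⟩ := h u hu v hv z hz h1 h2 h3
      obtain ⟨j, hj⟩ := exists_ne i
      exact ⟨j, hi j hj⟩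
    obtain ⟨u, hu, v, hv, huv⟩ := hc 0
    have hne : l u ≠ l v := fun he => huv (by rw [he])
    by_cases hall : ∀ z ∈ B, l z = l u ∨ l z = l v
    · refine ⟨l u, l v, ?_, hall⟩
      intro j
      obtain ⟨a, ha, b, hb, hab⟩ := hc j
      rcases hall a ha with h1 | h1 <;> rcases hall b hb with h2 | h2
      · exact absurd (by rw [h1, h2]) hab
      · rw [← h1, ← h2]; exact hab
      · rw [← h1, ← h2]; exact hab.symm
      · exact absurd (by rw [h1, h2]) hab
    · exfalso
      push Not at hall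
      obtain ⟨z, hz, hzu, hzv⟩ := hall
      obtain ⟨j, hj1, hj2⟩ := key u hu v hv z hz hne hzu.symm hzv.symm
      -- all of `B` is on the line
      obtain ⟨a, ha, b, hb, hab⟩ := hc j
      have hline : ∀ t ∈ B, l t j = l u j := by
        intro t ht
        by_cases htu : l t = l u
        · rw [htu]
        by_cases htv : l t = l v
        · rw [htv, ← hj1]
        obtain ⟨j', h1, h2⟩ := key u hu v hv t ht hne (Ne.symm htu) (Ne.symm htv)
        have hjj : j' = j := by
          by_contra hjj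
          apply hne
          ext m
          by_cases hm : m = j
          · rw [hm]; exact hj1
          · have : m = j' := by
              fin_cases m <;> fin_cases j <;> fin_cases j' <;> simp_all
            rw [this]; exact h1
        rw [← hjj]; exact h2.symm
      exact hab (by rw [hline a ha, hline b hb])

end S5Aux

open S5Aux

theorem sk_five {V : Type} (l : V → Fin 3 → ℕ) (w : V → ℝ) (hw : ∀ v, 0 ≤ w v) (X : Finset V) {c : ℝ} (hc : 0 < c)
    (hL : Lt3 l w X c (2 * c) (4 * c)) (hX : 6 * c ≤ ∑ v ∈ X, w v) :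
    Sk l X 5 ∨ ∃ f : Fin 4 → V, (∀ i, f i ∈ X) ∧ PD l f := by
  obtain ⟨hp, hl, hP⟩ := hL
  by_cases h1 : ∃ i K, 2 * c ≤ wt w X (fun v => l v i = K)
  · obtain ⟨i, K, h⟩ := h1
    left
    refine sk_add (s := 3) (t := 2) l X i K (A3 l w hw X hc hp hl i K h)
      (B2 l w hw X hc hl i K ?_)
    have h2 := split l w X i K
    have h3 := hP i K
    linarith
  push Not at h1
  by_cases h2 : ∃ i K, c ≤ wt w X (fun v => l v i = K)
  · obtain ⟨i, K, h⟩ := h2
    left
    refine sk_add (s := 2) (t := 3) l X i K (A2 l w hw X hc hp i K h)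
      (B3 l w hw X hc hl h1 i K ?_)
    have h2 := split l w X i K
    have h3 := h1 i K
    linarith
  push Not at h2
  exact case3 l w hw X hc hp hl h2 (by linarith)

theorem sk_five' {V : Type} (l : V → Fin 3 → ℕ) (w : V → ℝ) (hw : ∀ v, 0 ≤ w v) (X : Finset V) {c : ℝ}
    (hc : 0 < c) (hL : Lt3 l w X c (2 * c) (3 * c)) (hX : 5 * c ≤ ∑ v ∈ X, w v) :
    Sk l X 5 ∨ ∃ f : Fin 4 → V, (∀ i, f i ∈ X) ∧ PD l f := by
  obtain ⟨hp, hl, hP⟩ := hL
  by_cases h1 : ∃ i K, 2 * c ≤ wt w X (fun v => l v i = K)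
  · obtain ⟨i, K, h⟩ := h1
    left
    refine sk_add (s := 3) (t := 2) l X i K (A3 l w hw X hc hp hl i K h)
      (B2 l w hw X hc hl i K ?_)
    have h2 := split l w X i K
    have h3 := hP i K
    linarith
  push Not at h1
  by_cases h2 : ∃ i K, c ≤ wt w X (fun v => l v i = K)
  · obtain ⟨i, K, h⟩ := h2
    left
    have hsplit := split l w X i K
    have hPiK := h1 i K
    -- `X` is not contained in the union of two planes
    have htwo : ∀ (i j : Fin 3) (K K' : ℕ), ∃ v ∈ X, l v i ≠ K ∧ l v j ≠ K' := by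
      intro i j K K'
      by_contra hcon
      push Not at hcon
      have h3 : wt w X (fun v => l v i = K ∨ l v j = K') = ∑ v ∈ X, w v :=
        wt_all fun v hv => by
          by_cases h4 : l v i = K
          · exact Or.inl h4
          · exact Or.inr (hcon v hv h4)
      have h5 := wt_or_le hw X (fun v => l v i = K) (fun v => l v j = K')
      have h6 := h1 i K
      have h7 := h1 j K'
      linarith
    set B := X.filter (fun v => l v i ≠ K) with hB
    have hBne : B.Nonempty := nonempty_of w X _ (by linarith)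
    have hBw : wt w X (fun v => l v i ≠ K) = ∑ v ∈ B, w v := wt_eq_filter w X _
    rcases two_points (fun v => i.removeNth (l v)) B hBne (by
      intro j
      by_contra hcon
      push Not at hcon
      obtain ⟨u, hu⟩ := hBne
      obtain ⟨v, hv, h3, h4⟩ := htwo i (i.succAbove j) K (l u (i.succAbove j))
      exact h4 (hcon v (Finset.mem_filter.2 ⟨hv, h3⟩) u hu)) with
      ⟨u, hu, v, hv, z, hz, huv, huz, hvz, hcol⟩ | ⟨s, s', hss, hBs⟩
    · exact sk_add (s := 2) (t := 3) l X i K (A2 l w hw X hc hp i K h)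
        (sk_three _ _ hu hv hz huv huz hvz hcol)
    · -- the two lines
      have hline : ∀ q : Fin 2 → ℕ, wt w B (fun v => i.removeNth (l v) = q) < 2 * c :=
        fun q => lt_of_le_of_lt (pt_B l w hw X i K q) (hl _ _)
      have hsum : ∑ v ∈ B, w v ≤ wt w B (fun v => i.removeNth (l v) = s) +
          wt w B (fun v => i.removeNth (l v) = s') := by
        rw [← wt_all (w := w) (X := B) hBs]
        exact wt_or_le hw B _ _
      have hpair : ∀ q : Fin 2 → ℕ, c ≤ wt w B (fun v => i.removeNth (l v) = q) →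
          ∃ a ∈ B, ∃ b ∈ B, i.removeNth (l a) = q ∧ i.removeNth (l b) = q ∧ l a i ≠ l b i := by
        intro q hq
        by_contra hcon
        push Not at hcon
        obtain ⟨a, ha⟩ := nonempty_of w B (fun v => i.removeNth (l v) = q) (by linarith)
        obtain ⟨haB, haq⟩ := Finset.mem_filter.1 ha
        have h3 : wt w B (fun v => i.removeNth (l v) = q) ≤ wt w X (fun v => l v = l a) := by
          refine wt_mono hw fun v hv hvq => ⟨(Finset.mem_filter.1 hv).1, ?_⟩
          have h4 := hcon a haB v hv haq hvq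
          rw [← Fin.insertNth_self_removeNth i (l v), ← Fin.insertNth_self_removeNth i (l a),
            hvq, haq, h4]
        have h5 := hp (l a)
        linarith
      have hs1 := hline s
      have hs2 := hline s'
      obtain ⟨a, ha, b, hb, haq, hbq, hab⟩ := hpair s (by linarith)
      obtain ⟨a', ha', b', hb', haq', hbq', hab'⟩ := hpair s' (by linarith)
      set j := i.succAbove 0 with hj
      set k := i.succAbove 1 with hk
      have hij : i ≠ j := (Fin.succAbove_ne i 0).symm
      have hkj : k ≠ j := fun he => by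
        have := Fin.succAbove_right_injective he
        exact absurd this (by decide)
      have hik : i ≠ k := (Fin.succAbove_ne i 1).symm
      obtain ⟨p, hpi⟩ := Fin.exists_succAbove_eq hij
      obtain ⟨r, hrk⟩ := Fin.exists_succAbove_eq hkj
      have hpr : p ≠ r := fun he => hik (by rw [← hpi, ← hrk, he])
      have hla : l a j = s 0 := congrFun haq 0
      have hlb : l b j = s 0 := congrFun hbq 0
      have hla' : l a' j = s' 0 := congrFun haq' 0
      have hlb' : l b' j = s' 0 := congrFun hbq' 0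
      have hka' : l a' k = s' 1 := congrFun haq' 1
      have hkb' : l b' k = s' 1 := congrFun hbq' 1
      obtain ⟨v, hv, hvj, hvk⟩ := htwo j k (s 0) (s' 1)
      refine sk_add (s := 2) (t := 3) l X j (s 0) ?_ ?_
      · refine sk_two _ _ (u := a) (v := b)
          (Finset.mem_filter.2 ⟨(Finset.mem_filter.1 ha).1, hla⟩)
          (Finset.mem_filter.2 ⟨(Finset.mem_filter.1 hb).1, hlb⟩) ?_
        intro he
        have h3 := congrFun he p
        apply hab
        have h4 : l a (j.succAbove p) = l b (j.succAbove p) := h3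
        rwa [hpi] at h4
      · have hva : l v k ≠ l a' k := by rw [hka']; exact hvk
        have hvb : l v k ≠ l b' k := by rw [hkb']; exact hvk
        refine sk_three _ _ (u := a') (v := b') (z := v)
          (Finset.mem_filter.2 ⟨(Finset.mem_filter.1 ha').1, ?_⟩)
          (Finset.mem_filter.2 ⟨(Finset.mem_filter.1 hb').1, ?_⟩)
          (Finset.mem_filter.2 ⟨hv, hvj⟩) ?_ ?_ ?_ ?_
        · rw [hla']; exact (hss 0).symm
        · rw [hlb']; exact (hss 0).symm
        · intro he
          have h4 : l a' (j.succAbove p) = l b' (j.succAbove p) := congrFun he p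
          rw [hpi] at h4
          exact hab' h4
        · intro he
          have h4 : l a' (j.succAbove r) = l v (j.succAbove r) := congrFun he r
          rw [hrk] at h4
          exact hva h4.symm
        · intro he
          have h4 : l b' (j.succAbove r) = l v (j.succAbove r) := congrFun he r
          rw [hrk] at h4
          exact hvb h4.symm
        · intro m
          by_cases hm : m = p
          · refine ⟨r, by rw [hm]; exact hpr.symm, ?_⟩
            rintro ⟨-, h4⟩
            have h5 : l a' (j.succAbove r) = l v (j.succAbove r) := h4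
            rw [hrk] at h5
            exact hva h5.symm
          · refine ⟨p, Ne.symm hm, ?_⟩
            rintro ⟨h4, -⟩
            have h5 : l a' (j.succAbove p) = l b' (j.succAbove p) := h4
            rw [hpi] at h5
            exact hab' h5
  push Not at h2
  exact case3 l w hw X hc hp hl h2 hX

end Pool.Agent.MP5f1228C
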